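import Pool.Agent.Helper98.WF.St

/-!
# Project WF (MP_bae8ce_ag), module FT: the five-term relation over a locally finite field
-/

set_option autoImplicit false

namespace Pool.Agent.Helper28.WF.M_FT

open Pool.Agent.Helper98.WF
open Polynomial

/-- The finite subfield of the elements with `x ^ p ^ m = x`, as a subfield. -/
theorem exists_subfield (p : ℕ) [Fact p.Prime] (k : Type) [Field k] [CharP k p] (m : ℕ)
    (hm : 0 < m) : ∃ K : Subfield k, (∀ x, x ∈ K ↔ x ^ p ^ m = x) ∧ (K : Set k).Finite := by
  classical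
  have hp : p.Prime := Fact.out
  have hQ : p ^ m ≠ 0 := pow_ne_zero _ hp.ne_zero
  have hQ1 : 1 < p ^ m := Nat.one_lt_pow hm.ne' hp.one_lt
  let K : Subfield k :=
    { carrier := {x | x ^ p ^ m = x}
      mul_mem' := by
        intro a b ha hb
        simp only [Set.mem_ofPred_eq] at ha hb ⊢
        rw [mul_pow, ha, hb]
      one_mem' := one_pow _
      add_mem' := by
        intro a b ha hb
        simp only [Set.mem_ofPred_eq] at ha hb ⊢
        rw [add_pow_char_pow, ha, hb]
      zero_mem' := zero_pow hQ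
      neg_mem' := by
        intro a ha
        simp only [Set.mem_ofPred_eq] at ha ⊢
        have h1 : (0 - a) ^ p ^ m = 0 ^ p ^ m - a ^ p ^ m :=
          sub_pow_char_pow _ _ _
        rw [zero_sub, zero_pow hQ, ha, zero_sub] at h1
        exact h1
      inv_mem' := by
        intro a ha
        simp only [Set.mem_ofPred_eq] at ha ⊢
        rw [inv_pow, ha] }
  refine ⟨K, fun x => Iff.rfl, ?_⟩
  have hne : (X ^ p ^ m - X : k[X]) ≠ 0 := FiniteField.X_pow_card_sub_X_ne_zero k hQ1
  refine Set.Finite.subset (Finset.finite_toSet ((X ^ p ^ m - X : k[X]).roots.toFinset)) ?_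
  intro x hx
  have hx' : x ^ p ^ m = x := hx
  simp only [Finset.mem_coe, Multiset.mem_toFinset, mem_roots hne, IsRoot.def, eval_sub, eval_pow,
    eval_X]
  rw [hx', sub_self]

theorem stFT : StFT := by
  classical
  intro p hpf k hk hchar β halg hinv hsub h5 x hx0 hx1
  obtain ⟨m, hm, hxm⟩ := halg x
  obtain ⟨K, hK, hfin⟩ := exists_subfield p k m hm
  set S : Finset k := hfin.toFinset with hS
  have hmem : ∀ z, z ∈ S ↔ z ∈ K := by
    intro z
    rw [hS, Set.Finite.mem_toFinset]
    exact Iff.rfl
  have hxK : x ∈ K := (hK x).2 hxm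
  let U : k → Finset k := fun w => S.filter (fun z => z ≠ 0 ∧ z ≠ 1 ∧ z ≠ w)
  have hU : ∀ w z, z ∈ U w ↔ z ∈ K ∧ z ≠ 0 ∧ z ≠ 1 ∧ z ≠ w := by
    intro w z
    simp only [U, Finset.mem_filter, hmem]
  -- the whole sum
  have hV : ∑ z ∈ S.filter (fun z => z ≠ 0 ∧ z ≠ 1), β z = 0 := by
    have h1 : ∑ z ∈ S.filter (fun z => z ≠ 0 ∧ z ≠ 1), β z =
        ∑ z ∈ S.filter (fun z => z ≠ 0 ∧ z ≠ 1), β z⁻¹ := by
      refine Finset.sum_nbij' (fun z => z⁻¹) (fun z => z⁻¹) ?_ ?_ ?_ ?_ ?_
      · intro z hz
        simp only [Finset.mem_filter, hmem] at hz ⊢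
        exact ⟨K.inv_mem hz.1, inv_ne_zero hz.2.1, fun h => hz.2.2 (inv_eq_one.1 h)⟩
      · intro z hz
        simp only [Finset.mem_filter, hmem] at hz ⊢
        exact ⟨K.inv_mem hz.1, inv_ne_zero hz.2.1, fun h => hz.2.2 (inv_eq_one.1 h)⟩
      · intro z _
        exact inv_inv z
      · intro z _
        exact inv_inv z
      · intro z _
        rw [inv_inv]
    have h2 : ∑ z ∈ S.filter (fun z => z ≠ 0 ∧ z ≠ 1), β z⁻¹ =
        - ∑ z ∈ S.filter (fun z => z ≠ 0 ∧ z ≠ 1), β z := by
      rw [← Finset.sum_neg_distrib]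
      refine Finset.sum_congr rfl fun z hz => ?_
      simp only [Finset.mem_filter] at hz
      exact hinv z hz.2.1 hz.2.2
    linarith
  have hsumU : ∀ w, w ∈ K → w ≠ 0 → w ≠ 1 → ∑ z ∈ U w, β z = - β w := by
    intro w hw hw0 hw1
    have h1 : S.filter (fun z => z ≠ 0 ∧ z ≠ 1) = insert w (U w) := by
      ext z
      simp only [Finset.mem_filter, Finset.mem_insert, hU, hmem]
      constructor
      · rintro ⟨h1, h2, h3⟩
        by_cases h : z = w
        · exact Or.inl h
        · exact Or.inr ⟨h1, h2, h3, h⟩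
      · rintro (h | ⟨h1, h2, h3, _⟩)
        · subst h
          exact ⟨hw, hw0, hw1⟩
        · exact ⟨h1, h2, h3⟩
    have h2 : w ∉ U w := by
      rw [hU]
      rintro ⟨_, _, _, h⟩
      exact h rfl
    rw [h1, Finset.sum_insert h2] at hV
    linarith
  have hx1' : (1 : k) - x ≠ 0 := sub_ne_zero.2 (Ne.symm hx1)
  have h1K : (1 : k) ∈ K := K.one_mem
  -- (2)
  have e2 : ∑ y ∈ U x, β y = - β x := hsumU x hxK hx0 hx1
  -- (3)
  have e3 : ∑ y ∈ U x, β (y / x) = β x := by
    have h1 : ∑ y ∈ U x, β (y / x) = ∑ z ∈ U x⁻¹, β z := by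
      refine Finset.sum_nbij' (fun y => y / x) (fun z => z * x) ?_ ?_ ?_ ?_ ?_
      · intro y hy
        rw [hU] at hy ⊢
        obtain ⟨a, b, c, d⟩ := hy
        refine ⟨K.div_mem a hxK, div_ne_zero b hx0, ?_, ?_⟩
        · intro h
          exact d ((div_eq_one_iff_eq hx0).1 h)
        · intro h
          apply c
          field_simp at h
          exact h
      · intro z hz
        rw [hU] at hz ⊢
        obtain ⟨a, b, c, d⟩ := hz
        refine ⟨K.mul_mem a hxK, mul_ne_zero b hx0, ?_, ?_⟩
        · intro h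
          exact d (eq_inv_of_mul_eq_one_left h)
        · intro h
          apply c
          have : z * x = 1 * x := by rw [h, one_mul]
          exact mul_right_cancel₀ hx0 this
      · intro y _
        exact div_mul_cancel₀ y hx0
      · intro z _
        exact mul_div_cancel_right₀ z hx0
      · intro y _
        rfl
    rw [h1, hsumU x⁻¹ (K.inv_mem hxK) (inv_ne_zero hx0) (fun h => hx1 (inv_eq_one.1 h)),
      hinv x hx0 hx1, neg_neg]
  -- (4)
  have e4 : ∑ y ∈ U x, β ((1 - y) / (1 - x)) = - β x := by
    have h1 : ∑ y ∈ U x, β ((1 - y) / (1 - x)) = ∑ z ∈ U (1 - x)⁻¹, β z := by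
      refine Finset.sum_nbij' (fun y => (1 - y) / (1 - x)) (fun z => 1 - z * (1 - x))
        ?_ ?_ ?_ ?_ ?_
      · intro y hy
        rw [hU] at hy ⊢
        obtain ⟨a, b, c, d⟩ := hy
        refine ⟨K.div_mem (K.sub_mem h1K a) (K.sub_mem h1K hxK),
          div_ne_zero (sub_ne_zero.2 (Ne.symm c)) hx1', ?_, ?_⟩
        · intro h
          rw [div_eq_one_iff_eq hx1'] at h
          exact d (by linear_combination -h)
        · intro h
          apply b
          rw [div_eq_iff hx1', inv_mul_cancel₀ hx1'] at h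
          linear_combination -h
      · intro z hz
        rw [hU] at hz ⊢
        obtain ⟨a, b, c, d⟩ := hz
        refine ⟨K.sub_mem h1K (K.mul_mem a (K.sub_mem h1K hxK)), ?_, ?_, ?_⟩
        · intro h
          exact d (eq_inv_of_mul_eq_one_left (by linear_combination -h))
        · intro h
          have h2 : z * (1 - x) = 0 := by linear_combination -h
          rcases mul_eq_zero.1 h2 with h3 | h3
          · exact b h3
          · exact hx1' h3
        · intro h
          apply c
          have h2 : (z - 1) * (1 - x) = 0 := by linear_combination -h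
          rcases mul_eq_zero.1 h2 with h3 | h3
          · exact sub_eq_zero.1 h3
          · exact absurd h3 hx1'
      · intro y _
        show 1 - (1 - y) / (1 - x) * (1 - x) = y
        rw [div_mul_cancel₀ _ hx1']
        ring
      · intro z _
        show (1 - (1 - z * (1 - x))) / (1 - x) = z
        rw [sub_sub_cancel, mul_div_cancel_right₀ _ hx1']
      · intro y _
        rfl
    have hb0 : (1 : k) - x ≠ 1 := fun h => hx0 (by linear_combination -h)
    rw [h1, hsumU (1 - x)⁻¹ (K.inv_mem (K.sub_mem h1K hxK)) (inv_ne_zero hx1')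
      (fun h => hb0 (inv_eq_one.1 h)), hinv (1 - x) hx1' hb0, neg_neg, hsub x hx0 hx1]
  -- (5)
  have hw : (1 : k) - x⁻¹ ≠ 0 := by
    intro h
    exact hx1 (inv_eq_one.1 (by linear_combination -h))
  have hw1 : (1 : k) - x⁻¹ ≠ 1 := by
    intro h
    exact inv_ne_zero hx0 (by linear_combination -h)
  have e5 : ∑ y ∈ U x, β (y * (1 - x) / (x * (1 - y))) = - β x := by
    have h1 : ∑ y ∈ U x, β (y * (1 - x) / (x * (1 - y))) = ∑ z ∈ U (1 - x⁻¹), β z := by
      refine Finset.sum_nbij' (fun y => y * (1 - x) / (x * (1 - y)))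
        (fun z => x * z / (1 - x + x * z)) ?_ ?_ ?_ ?_ ?_
      · intro y hy
        rw [hU] at hy ⊢
        obtain ⟨a, b, c, d⟩ := hy
        have hy1 : (1 : k) - y ≠ 0 := sub_ne_zero.2 (Ne.symm c)
        have hd : x * (1 - y) ≠ 0 := mul_ne_zero hx0 hy1
        refine ⟨K.div_mem (K.mul_mem a (K.sub_mem h1K hxK)) (K.mul_mem hxK (K.sub_mem h1K a)),
          div_ne_zero (mul_ne_zero b hx1') hd, ?_, ?_⟩
        · intro h
          rw [div_eq_one_iff_eq hd] at h
          exact d (by linear_combination h)
        · intro h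
          rw [div_eq_iff hd] at h
          have h2 : (1 - x⁻¹) * (x * (1 - y)) = (x - 1) * (1 - y) := by
            field_simp
          rw [h2] at h
          exact hx1' (by linear_combination h)
      · intro z hz
        rw [hU] at hz ⊢
        obtain ⟨a, b, c, d⟩ := hz
        have hd : (1 : k) - x + x * z ≠ 0 := by
          intro h
          apply d
          have h2 : x * (z - (1 - x⁻¹)) = 0 := by
            have h3 : x * (z - (1 - x⁻¹)) = x * z - x + x * x⁻¹ := by ring
            rw [h3, mul_inv_cancel₀ hx0]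
            linear_combination h
          rcases mul_eq_zero.1 h2 with h3 | h3
          · exact absurd h3 hx0
          · exact sub_eq_zero.1 h3
        refine ⟨K.div_mem (K.mul_mem hxK a) (K.add_mem (K.sub_mem h1K hxK) (K.mul_mem hxK a)),
          div_ne_zero (mul_ne_zero hx0 b) hd, ?_, ?_⟩
        · intro h
          rw [div_eq_one_iff_eq hd] at h
          exact hx1' (by linear_combination -h)
        · intro h
          rw [div_eq_iff hd] at h
          apply c
          have h2 : x * ((z - 1) * (1 - x)) = 0 := by linear_combination h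
          rcases mul_eq_zero.1 h2 with h3 | h3
          · exact absurd h3 hx0
          · rcases mul_eq_zero.1 h3 with h4 | h4
            · exact sub_eq_zero.1 h4
            · exact absurd h4 hx1'
      · intro y hy
        rw [hU] at hy
        obtain ⟨a, b, c, d⟩ := hy
        have hy1 : (1 : k) - y ≠ 0 := sub_ne_zero.2 (Ne.symm c)
        show x * (y * (1 - x) / (x * (1 - y))) / (1 - x + x * (y * (1 - x) / (x * (1 - y)))) = y
        have h2 : x * (y * (1 - x) / (x * (1 - y))) = y * (1 - x) / (1 - y) := by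
          field_simp
        rw [h2]
        have h3 : 1 - x + y * (1 - x) / (1 - y) = (1 - x) / (1 - y) := by
          field_simp
          ring
        rw [h3]
        field_simp
      · intro z hz
        rw [hU] at hz
        obtain ⟨a, b, c, d⟩ := hz
        have hd : (1 : k) - x + x * z ≠ 0 := by
          intro h
          apply d
          have h2 : x * (z - (1 - x⁻¹)) = 0 := by
            have h3 : x * (z - (1 - x⁻¹)) = x * z - x + x * x⁻¹ := by ring
            rw [h3, mul_inv_cancel₀ hx0]
            linear_combination h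
          rcases mul_eq_zero.1 h2 with h3 | h3
          · exact absurd h3 hx0
          · exact sub_eq_zero.1 h3
        show x * z / (1 - x + x * z) * (1 - x) / (x * (1 - x * z / (1 - x + x * z))) = z
        have h2 : 1 - x * z / (1 - x + x * z) = (1 - x) / (1 - x + x * z) := by
          rw [eq_div_iff hd, sub_mul, div_mul_cancel₀ _ hd]
          ring
        rw [h2]
        field_simp
      · intro y _
        rfl
    rw [h1, hsumU (1 - x⁻¹) (K.sub_mem h1K (K.inv_mem hxK)) hw hw1,
      hsub x⁻¹ (inv_ne_zero hx0) (fun h => hx1 (inv_eq_one.1 h)), hinv x hx0 hx1]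
    ring
  -- the sum of the five-term relation
  have hfive : ∑ y ∈ U x, (β x - β y + β (y / x) - β ((1 - y) / (1 - x)) -
      β (y * (1 - x) / (x * (1 - y)))) = 0 := by
    refine Finset.sum_eq_zero fun y hy => ?_
    rw [hU] at hy
    exact h5 x y hx0 hx1 hy.2.1 hy.2.2.1 (Ne.symm hy.2.2.2)
  rw [Finset.sum_sub_distrib, Finset.sum_sub_distrib, Finset.sum_add_distrib,
    Finset.sum_sub_distrib, e2, e3, e4, e5, Finset.sum_const, nsmul_eq_mul] at hfive
  have h6 : ((U x).card + 4 : ℚ) * β x = 0 := by linarith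
  rcases mul_eq_zero.1 h6 with h7 | h7
  · exfalso
    have : (0 : ℚ) ≤ ((U x).card : ℚ) := Nat.cast_nonneg _
    linarith
  · exact h7

end Pool.Agent.Helper28.WF.M_FT
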